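import Pool.Agent.H.MP_6a1d6a_ag.KC.Main

/-!
Nefness of the cotangent bundle of complex hyperbolic cone manifolds with disjoint smooth singular divisors.
-/

open scoped Manifold ContDiff

namespace Pool.Agent.Results.MP_6a1d6a_ag.ConeManifold

/-- Let the complex manifold `Y` (of any dimension `n + 1`) have a complex hyperbolic cone metric (holomorphic sectional
curvature `-1`) with arbitrary cone angles `2π / d i` along finitely many disjoint smooth divisors, which have embedded
and disjoint tubular neighbourhoods of radius `R i > 0`, `cosh (R i) > d i` (no condition on `R i` for the cone angles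
`≥ 2π`). Then the cotangent bundle of `Y` is nef. -/
theorem result {n : ℕ} {Y : Type} [TopologicalSpace Y] [ChartedSpace (Nef6.KC.E n) Y]
    [IsManifold 𝓘(ℂ, Nef6.KC.E n) ω Y] (X : Nef6.KC.ConeManifold n Y) :
    Nef6.CotangentNef (Nef6.KC.E n) Y :=
  Nef6.KC.nef_cone X

end Pool.Agent.Results.MP_6a1d6a_ag.ConeManifold
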