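import Pool.Agent.H.MP_6a1d6a_ag.CC.Main

/-!
Nefness of the cotangent bundle of toroidal compactifications of complex hyperbolic manifolds with cusps of depth
greater than 2 pi (cusp closing).
-/

open scoped Manifold ContDiff

namespace Pool.Agent.Results.MP_6a1d6a_ag.CuspClosing

/-- Let the complex manifold `Y` be a toroidal compactification of a complex hyperbolic manifold (of any dimension
`n + 1`), with finitely many cusps, with embedded and disjoint horoball neighbourhoods such that the circle fibres of
the horospheres which bound them are longer than `2π` (holomorphic sectional curvature `-1`). Then the cotangent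
bundle of `Y` is nef. -/
theorem result {n : ℕ} {Y : Type} [TopologicalSpace Y] [ChartedSpace (Nef6.CC.E n) Y]
    [IsManifold 𝓘(ℂ, Nef6.CC.E n) ω Y] (X : Nef6.CC.CuspClosing n Y) :
    Nef6.CotangentNef (Nef6.CC.E n) Y :=
  Nef6.CC.nef_cusp X

end Pool.Agent.Results.MP_6a1d6a_ag.CuspClosing
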