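import Pool.Agent.H.MP_6a1d6a_ag.QC

/-!
Nefness of the cotangent bundle for compact Kaehler manifolds covered by (arbitrary bounded domain) × ℂ^k
whose leaves are products of quasiconformally flat factors.

D ⊆ ℂⁿ is a bounded domain, M = D × ℂ^k, Γ a group acting on M by biholomorphic maps, properly
discontinuously and cocompactly, preserving a smooth Kaehler metric h of M. The coordinates of ℂ^k are divided
into blocks, Γ permutes the blocks, and over compact subsets of D the restrictions of h to the blocks of the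
leaves {b} × ℂ^k have bounded eccentricity. Y = M/Γ is a complex manifold. If D is contractible then Y is
aspherical, so that the question (Liu-Maxim-Wang) asks whether T^*Y is nef.
-/

open Set Topology
open scoped Manifold ContDiff

namespace Pool.Agent.Results.MP_6a1d6a_ag.QuasiconformalLeaves

/-- The (1,0)-derivative `∂_u ψ (x) = (D_u ψ - i D_{iu} ψ)/2` of a complex valued function on `ℂⁿ × ℂ^k`. -/
noncomputable def dHol {n k : ℕ} (ψ : (Fin n → ℂ) × (Fin k → ℂ) → ℂ)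
    (x u : (Fin n → ℂ) × (Fin k → ℂ)) : ℂ :=
  (1 / 2 : ℂ) * (fderiv ℝ ψ x u - Complex.I * fderiv ℝ ψ x (Complex.I • u))

/-- A smooth Kaehler metric on the open set `M` of `ℂⁿ × ℂ^k`: a smooth family of positive definite
Hermitian forms `h x`, complex linear in the first variable, with `∂_u h(v, w) = ∂_v h(u, w)`
(closedness of the associated (1,1)-form). -/
structure KaehlerMetric {n k : ℕ} (M : Set ((Fin n → ℂ) × (Fin k → ℂ))) where
  h : (Fin n → ℂ) × (Fin k → ℂ) → (Fin n → ℂ) × (Fin k → ℂ) → (Fin n → ℂ) × (Fin k → ℂ) → ℂ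
  smooth : ∀ v w, ContDiffOn ℝ (⊤ : ℕ∞) (fun x => h x v w) M
  add_left : ∀ x ∈ M, ∀ u v w, h x (u + v) w = h x u w + h x v w
  smul_left : ∀ x ∈ M, ∀ (c : ℂ) (v w : (Fin n → ℂ) × (Fin k → ℂ)), h x (c • v) w = c * h x v w
  herm : ∀ x ∈ M, ∀ v w, h x w v = (starRingEnd ℂ) (h x v w)
  pos : ∀ x ∈ M, ∀ v, v ≠ 0 → 0 < (h x v v).re
  kaehler : ∀ x ∈ M, ∀ u v w, dHol (fun y => h y v w) x u = dHol (fun y => h y u w) x v

/-- A group `Γ` acting on `D × ℂ^k` by holomorphic maps (so by biholomorphic maps), properly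
discontinuously and cocompactly, and preserving a Kaehler metric. -/
structure CompactKaehlerQuotient {n : ℕ} (D : Set (Fin n → ℂ)) (k : ℕ) (Γ : Type) [Group Γ] where
  g : Γ → (Fin n → ℂ) × (Fin k → ℂ) → (Fin n → ℂ) × (Fin k → ℂ)
  maps : ∀ γ, MapsTo (g γ) (D ×ˢ univ) (D ×ˢ univ)
  holo : ∀ γ, DifferentiableOn ℂ (g γ) (D ×ˢ univ)
  one : ∀ x ∈ D ×ˢ (univ : Set (Fin k → ℂ)), g 1 x = x
  mul : ∀ γ δ, ∀ x ∈ D ×ˢ (univ : Set (Fin k → ℂ)), g (γ * δ) x = g γ (g δ x)
  proper : ∀ K ⊆ D ×ˢ (univ : Set (Fin k → ℂ)), IsCompact K → {γ | (g γ '' K ∩ K).Nonempty}.Finite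
  cocompact : ∃ K ⊆ D ×ˢ (univ : Set (Fin k → ℂ)), IsCompact K ∧
    ∀ x ∈ D ×ˢ (univ : Set (Fin k → ℂ)), ∃ γ, g γ x ∈ K
  metric : KaehlerMetric (D ×ˢ (univ : Set (Fin k → ℂ)))
  isometry : ∀ γ, ∀ x ∈ D ×ˢ (univ : Set (Fin k → ℂ)), ∀ v w,
    metric.h (g γ x) (fderiv ℂ (g γ) x v) (fderiv ℂ (g γ) x w) = metric.h x v w

/-- (a) The coordinates of `ℂ^k` are divided into blocks (`blk j` is the block of the coordinate `j`), and the
group permutes the blocks: the block `i` of `g γ (b, z)` in the leaf direction depends only on `b` and on the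
block `σ i` of `z`, for a permutation `σ` depending on `γ`. (No condition if there is only one block.) -/
def PermutesBlocks {n : ℕ} {D : Set (Fin n → ℂ)} {k : ℕ} {Γ : Type} [Group Γ]
    (X : CompactKaehlerQuotient D k Γ) {r : ℕ} (blk : Fin k → Fin r) : Prop :=
  ∀ γ, ∃ σ : Equiv.Perm (Fin r), ∀ b ∈ D, ∀ z z' : Fin k → ℂ, ∀ i,
    (∀ j, blk j = σ i → z j = z' j) → ∀ j, blk j = i → (X.g γ (b, z)).2 j = (X.g γ (b, z')).2 j

/-- (b) Over compact subsets of `D` the restrictions of the Kaehler metric to the blocks of the leaves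
`{b} × ℂ^k` have bounded eccentricity (in the coordinates of `ℂ^k`), uniformly in `z`. (No condition for blocks
of size one; `‖v‖` is the maximum norm.) -/
def BoundedEccentricity {n : ℕ} {D : Set (Fin n → ℂ)} {k : ℕ} {Γ : Type} [Group Γ]
    (X : CompactKaehlerQuotient D k Γ) {r : ℕ} (blk : Fin k → Fin r) : Prop :=
  ∀ K ⊆ D, IsCompact K → ∃ C : ℝ, ∀ b ∈ K, ∀ z : Fin k → ℂ, ∀ i, ∀ v w : Fin k → ℂ,
    (∀ j, blk j ≠ i → v j = 0) → (∀ j, blk j ≠ i → w j = 0) →
    (X.metric.h (b, z) (0, v) (0, v)).re * ‖w‖ ^ 2 ≤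
      C * ((X.metric.h (b, z) (0, w) (0, w)).re * ‖v‖ ^ 2)

/-- The complex manifold `Y` is the quotient `(D × ℂ^k)/Γ`, with projection `p`: the fibres of `p` are the
orbits, and `p` is locally the inverse of a holomorphic chart of `Y`. -/
structure IsQuotient {n : ℕ} {D : Set (Fin n → ℂ)} {k : ℕ} {Γ : Type} [Group Γ]
    (X : CompactKaehlerQuotient D k Γ) {Y : Type} [TopologicalSpace Y]
    [ChartedSpace ((Fin n → ℂ) × (Fin k → ℂ)) Y] (p : (Fin n → ℂ) × (Fin k → ℂ) → Y) : Prop where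
  surj : ∀ y, ∃ x ∈ D ×ˢ (univ : Set (Fin k → ℂ)), p x = y
  rel : ∀ x ∈ D ×ˢ (univ : Set (Fin k → ℂ)), ∀ x' ∈ D ×ˢ (univ : Set (Fin k → ℂ)),
    p x = p x' ↔ ∃ γ, X.g γ x = x'
  chart : ∀ x ∈ D ×ˢ (univ : Set (Fin k → ℂ)), ∃ φ ∈ Nef6.Charts ((Fin n → ℂ) × (Fin k → ℂ)) Y,
    x ∈ φ.target ∧ φ.target ⊆ D ×ˢ univ ∧ ∀ y ∈ φ.target, p y = φ.symm y

/-- For every bounded domain `D` of `ℂⁿ`, every `k` and every compact Kaehler manifold `Y = (D × ℂ^k)/Γ` whose
group permutes blocks of coordinates of the leaves, the Kaehler metric having bounded eccentricity on the blocks,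
the cotangent bundle of `Y` is nef. (This covers every `Y = (D × ℂ^k)/Γ` with `k ≤ 1`, groups preserving a product
structure of the leaves, i.e. blocks of size one, and groups preserving flat metrics of the leaves, see `prod_hyp`
and `flat_hyp` in `H/MP_e23cd6_ag/CB/Red`.) -/
theorem result {n : ℕ} {D : Set (Fin n → ℂ)} (hD : IsOpen D) (hconn : IsConnected D)
    (hbdd : Bornology.IsBounded D) {k : ℕ} {Γ : Type} [Group Γ] (X : CompactKaehlerQuotient D k Γ)
    {r : ℕ} (blk : Fin k → Fin r) (ha : PermutesBlocks X blk) (hb : BoundedEccentricity X blk)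
    {Y : Type} [TopologicalSpace Y] [ChartedSpace ((Fin n → ℂ) × (Fin k → ℂ)) Y]
    [IsManifold 𝓘(ℂ, (Fin n → ℂ) × (Fin k → ℂ)) ω Y] (p : (Fin n → ℂ) × (Fin k → ℂ) → Y)
    (hp : IsQuotient X p) : Nef6.CotangentNef ((Fin n → ℂ) × (Fin k → ℂ)) Y :=
  Nef6.nef_qc hD hconn hbdd X.g X.maps X.holo X.one X.mul X.proper X.cocompact
    ⟨X.metric.h, X.metric.smooth, X.metric.add_left, X.metric.smul_left, X.metric.herm,
      X.metric.pos, X.metric.kaehler⟩ X.isometry blk ha hb hp.surj hp.rel hp.chart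

end Pool.Agent.Results.MP_6a1d6a_ag.QuasiconformalLeaves
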