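import Pool.Agent.H.MP_6a1d6a_ag.UM.Main
import Pool.Agent.H.MP_6a1d6a_ag.UM.H2

/-!
Nefness of the cotangent bundle for complex manifolds with singular metrics of nonpositive curvature: cone metrics with
arbitrary cone angles `≥ 2π` along divisors with normal crossings, degenerate metrics which may vanish on arbitrary sets, and
worse singularities at isolated points. The examples in mind are polyhedral Kaehler manifolds and complex hyperbolic cone
manifolds.

Y is a complex manifold of dimension N ≥ 2. On Y (outside of the exceptional points) there is given a metric with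
plurisubharmonic logarithm (nonpositive curvature in the sense of Griffiths), which near each point is of one of the following
types.
(1) In the coordinates of a cone chart it is the pull-back, by the multivalued map `x ↦ (x i ^ a i)` with real numbers
`a i ≥ 1`, of a continuous convex complex Finsler metric (for instance a Hermitian metric) which is invariant under the
rotations of the coordinates x i with a i ≠ 1; the cone angles are `2π a i`.
(2) In a disc chart it is continuous and may vanish on an arbitrary set. It does not vanish identically on the tangent
vectors of a straight disc `{x + s v : |s| ≤ r}`, and for small `r` their lengths are stable under perturbations of second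
order of the disc, relative to the maximal length (`Stable`).
(3) An exceptional point has a punctured neighbourhood which is covered by cone charts, with cone angles `≤ 4π` or bounded
conical metrics on the kernel; nothing is assumed about the point itself and about the closure of the singular divisor there.
If the metric is locally CAT(0) then Y is aspherical, so that the question (Liu-Maxim-Wang) asks whether T^*Y is nef.

The flat metric and the complex hyperbolic metric are metrics in the sense of `IsMetric`, invariant under all rotations: see
`flat_metric`, `flat_rot` in `SN/Ex1` and `bh_metric`, `bh_rot` in `SN/Ex2`. The conditions in (2) hold for nondegenerate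
continuous metrics (`semi_of_metric`, `stable_of_metric` in `UM/Ex3`), for the cone metrics in (1) with cone angles `< 4π`
(`semi_pull`, `stable_pull` in `UM/Ex4b`, `UM/Ex4c`), and for their restrictions to linear subspaces, which are singular along
arbitrary arrangements of hyperplanes (`semi_linear`, `stable_linear` in `UM/Ex5`). `Stable` holds at the vertex of a
homogeneous cone if it holds at the other points (`stable_homogeneous` in `UM/Ex6`), and for products with flat metrics if the
metric vanishes to an order less than one (`LowOrder` in `UM/Low`, `stable_prod` in `UM/Ex7`). The order is less than one for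
the cone metrics with cone angles `< 4π` (`low_pull` in `UM/Ex8`), for homogeneous cones of degree `< 1` if it is less than
one at the points other than the vertex (`low_homogeneous` in `UM/Ex6`), and for products with flat metrics (`low_prod` in
`UM/Ex7`). `Stable` does not hold for metrics which vanish to the first order, and the conclusion may fail for them: on a
double cover of an abelian surface, branched along a smooth ample curve, the pull-back of the flat metric is continuous with
plurisubharmonic logarithm, but its kernel along the ramification curve has positive degree.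

The proof uses the length of a meromorphic field along a curve in (1) and (3), or its conical length if the field is in the
kernel, and in (2) `- log` of the Hartogs radius, i.e. of the number `r` with `r * disc F x v r = T`, for `T → 0`. They differ
by a constant and an error which tends to `0` with `T`.
-/

set_option autoImplicit false

open scoped Manifold ContDiff
open Pool.Agent.Nef6.SN (E Chart IsMetric RotInv pt pull KerA knA)
open Pool.Agent.Nef6.DM (IsSemi)
open Pool.Agent.Nef6.UM (Stable Isom)

namespace Pool.Agent.Results.MP_6a1d6a_ag.SingularMetrics

/-- A holomorphic chart `ch` with values in `ℂ^N`, together with a metric on its domain: the pull-back of the metric `h`,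
which is invariant under the rotations of the coordinates `x i` with `a i ≠ 1`, by `x ↦ (x i ^ a i)`. It has the cone angles
`2π a i` along the coordinate hyperplanes `x i = 0`. -/
structure ConeChart (N : ℕ) (Y : Type) [TopologicalSpace Y] [ChartedSpace (E N) Y] where
  ch : Chart N Y
  a : Fin N → ℝ
  U : Set (E N)
  h : E N → E N → ℝ
  hol : ch ∈ Nef6.Charts (E N) Y
  metric : IsMetric h U
  maps : ∀ x ∈ ch.target, pt a x ∈ U
  one_le : ∀ i, 1 ≤ a i
  rot : RotInv a h U

/-- A holomorphic chart `ch` with values in `ℂ^N`, together with a continuous, possibly degenerate metric `F` on its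
domain. -/
structure DiscChart (N : ℕ) (Y : Type) [TopologicalSpace Y] [ChartedSpace (E N) Y] where
  ch : Chart N Y
  F : E N → E N → ℝ
  hol : ch ∈ Nef6.Charts (E N) Y
  semi : IsSemi F ch.target
  stable : Stable F ch.target

variable {N : ℕ} {Y : Type} [TopologicalSpace Y] [ChartedSpace (E N) Y]

/-- The metric of the cone chart: `c.F x v` is the length of the tangent vector `v` at the point with the coordinates `x`. -/
noncomputable def ConeChart.F (c : ConeChart N Y) : E N → E N → ℝ := pull c.a c.h

/-- The coordinates in the cone chart of the tangent vector at `y` with the coordinates `v` in the chart `φ`. -/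
noncomputable def ConeChart.coord (c : ConeChart N Y) (φ : Chart N Y) (y : Y) (v : E N) : E N :=
  fderiv ℂ (c.ch ∘ φ.symm) (φ y) v

/-- The cone angles of the divisors through the point `y` are `≤ 4π`. -/
def ConeChart.LowAngles (c : ConeChart N Y) (y : Y) : Prop := ∀ i, c.ch y i = 0 → c.a i ≤ 2

/-- The tangent vectors `v` (in the chart `φ`) at the point `y` which are in the kernel of the metric have conical lengths
at most `C ‖v‖`. -/
def ConeChart.KernelBound (c : ConeChart N Y) (φ : Chart N Y) (y : Y) (C : ℝ) : Prop :=
  ∀ A, 1 < A → ∀ v, KerA c.a A (c.ch y) (c.coord φ y v) →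
    knA c.a A c.h (c.ch y) (c.coord φ y v) ≤ C * ‖v‖

/-- A singular metric of nonpositive curvature on the complex manifold `Y`, given by cone charts and disc charts. The other
points of `Y` are exceptional points. -/
structure SingularMetric (N : ℕ) (Y : Type) [TopologicalSpace Y] [ChartedSpace (E N) Y] where
  J : Type
  c : J → ConeChart N Y
  K : Type
  d : K → DiscChart N Y
  /-- the charts define the same metric -/
  compat : ∀ i j, Isom (c i).ch (c i).F (c j).ch (c j).F
  compat' : ∀ k l, Isom (d k).ch (d k).F (d l).ch (d l).F
  compat'' : ∀ k j, Isom (d k).ch (d k).F (c j).ch (c j).F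
  /-- an exceptional point `p` has a neighbourhood such that its other points are in cone charts and not in disc charts -/
  punct : ∀ p, (∀ j, p ∉ (c j).ch.source) → (∀ k, p ∉ (d k).ch.source) → ∃ W, IsOpen W ∧ p ∈ W ∧
    ∀ y ∈ W, (y = p ∨ ∃ j, y ∈ (c j).ch.source) ∧ ∀ k, y ∉ (d k).ch.source
  /-- near an exceptional point either the cone angles are `≤ 4π`, or the conical metrics on the kernel are bounded -/
  exc : ∀ p, (∀ j, p ∉ (c j).ch.source) → (∀ k, p ∉ (d k).ch.source) →
    (∃ W, IsOpen W ∧ p ∈ W ∧ ∀ j, ∀ y ∈ W, y ∈ (c j).ch.source → (c j).LowAngles y) ∨
    ∃ φ ∈ Nef6.Charts (E N) Y, p ∈ φ.source ∧ ∃ C : ℝ, ∀ j, ∀ y ∈ φ.source, y ∈ (c j).ch.source →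
      (c j).KernelBound φ y C

private theorem pull_hom (c : ConeChart N Y) : ∀ x ∈ c.ch.target, ∀ (s : ℂ) (v : E N),
    c.F x (s • v) = ‖s‖ * c.F x v :=
  fun x hx s v => Nef6.SN.pull_smul c.metric (c.maps x hx) s v

/-- the same data in the form used in the proof -/
private noncomputable def conv [IsManifold 𝓘(ℂ, E N) ω Y] (X : SingularMetric N Y) :
    Nef6.UM.Mixed N Y where
  P := {y | ∀ j, y ∉ (X.c j).ch.source}
  J := X.J
  ch j := (X.c j).ch
  a j := (X.c j).a
  U j := (X.c j).U
  h j := (X.c j).h
  hol j := (X.c j).hol
  cover y := by
    simp only [Set.mem_ofPred_eq, not_forall, not_not]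
  metric j := (X.c j).metric
  maps j := (X.c j).maps
  one_le j := (X.c j).one_le
  rot j := (X.c j).rot
  compat i j y hi hj v := X.compat i j y hi hj v
  D := X.K
  dch k := (X.d k).ch
  F k := (X.d k).F
  dhol k := (X.d k).hol
  semi k := (X.d k).semi
  stab k l y hk hl := (Nef6.UM.stab_of_stable (X.d k).hol (X.d l).hol (X.d k).semi (X.d k).stable
    (X.d l).semi.smul (X.compat' k l) hk hl).1
  stabCD j k y hj hk := (Nef6.UM.stab_of_stable (X.d k).hol (X.c j).hol (X.d k).semi (X.d k).stable
    (pull_hom (X.c j)) (X.compat'' k j) hk hj).2
  stabDC j k y hj hk := (Nef6.UM.stab_of_stable (X.d k).hol (X.c j).hol (X.d k).semi (X.d k).stable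
    (pull_hom (X.c j)) (X.compat'' k j) hk hj).1
  exc p hp := by
    by_cases hk : ∃ k, p ∈ (X.d k).ch.source
    · exact Or.inl hk
    · have hk' : ∀ k, p ∉ (X.d k).ch.source := fun k h => hk ⟨k, h⟩
      obtain ⟨W, hW, hpW, h⟩ := X.punct p hp hk'
      refine Or.inr ⟨⟨⟨W, hW, hpW, ?_⟩, ?_⟩, W, hW, hpW, fun k y hy => (h y hy).2 k⟩
      · rintro y ⟨hyW, hyP⟩
        rcases (h y hyW).1 with h1 | ⟨j, hj⟩
        · exact h1
        · exact absurd hj (hyP j)
      · rcases X.exc p hp hk' with ⟨W, hW, hpW, h⟩ | ⟨φ, hφ, hpφ, C, h⟩
        · exact Or.inl ⟨W, hW, hpW, h⟩
        · refine Or.inr ⟨φ, hφ, hpφ, max C 0, le_max_right _ _, fun j y hy hyj A hA v hv => ?_⟩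
          exact (h j y hy hyj A hA v hv).trans
            (mul_le_mul_of_nonneg_right (le_max_left _ _) (norm_nonneg _))

/-- The cotangent bundle of a complex manifold of dimension `N ≥ 2` with a singular metric of nonpositive curvature is
nef. -/
theorem result {N : ℕ} (hN : 2 ≤ N) {Y : Type} [TopologicalSpace Y] [ChartedSpace (E N) Y]
    [IsManifold 𝓘(ℂ, E N) ω Y] (X : SingularMetric N Y) : Nef6.CotangentNef (E N) Y :=
  Nef6.UM.nef_mixed hN (conv X)

end Pool.Agent.Results.MP_6a1d6a_ag.SingularMetrics
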